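import Pool.Agent.Helper49.OT.Defs

/-! OT-KEY (MP_398e1f_an): periodic holomorphic maps on `ℍ × ℂ × ℂ` are constant. -/

open scoped Manifold ContDiff Topology
open Set Filter

noncomputable section

namespace HolPH.OT

theorem one_mem_Lat : (1 : C3) ∈ Lat := by
  refine mem_Lat.2 ⟨![1, 0, 0, 0, 0], ?_⟩
  simp only [Fin.sum_univ_five, Matrix.cons_val]
  simp

theorem key_one_lt_U1 : 1 < U1 := by
  have h := rho_pos
  have h2 := pow_pos h 2
  have h3 := pow_pos h 3
  have h4 := pow_pos h 4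
  unfold U1
  linarith

/-- the form with the cocompactness of `Lat` as a hypothesis -/
theorem key_of_cover {E : Type*} [NormedAddCommGroup E] [NormedSpace ℂ E]
    (hcov : ∃ D : ℝ, 0 < D ∧ ∀ t : C3, t.1.im = 0 → ∃ a ∈ Lat, ‖t - a‖ ≤ D) (G : C3 → E)
    (hG : DifferentiableOn ℂ G X) (d : ℕ) (hd : 1 ≤ d)
    (hper : ∀ a ∈ Lat, ∀ x ∈ X, G (x + (d : ℤ) • a) = G x) :
    ∀ x ∈ X, ∀ y ∈ X, G x = G y := by
  obtain ⟨D, hD, hcov⟩ := hcov
  have hd0 : (0 : ℝ) < d := by exact_mod_cast hd
  have hdC : (d : ℂ) ≠ 0 := by exact_mod_cast (by omega : d ≠ 0)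
  have e1 : ∀ b : C3, ((d : ℤ) • b).1 = (d : ℂ) * b.1 := fun b => by
    rw [Prod.smul_fst, zsmul_eq_mul]
    push_cast
    rfl
  -- the value depends only on the first coordinate
  have hfst : ∀ (z : ℂ), 0 < z.im → ∀ w w' : C2, G (z, w) = G (z, w') := by
    intro z hz w w'
    -- bound
    have hK : IsCompact {x : C3 | x.1.im = z.im ∧ ‖x‖ ≤ z.im + d * D} := by
      have h1 : {x : C3 | x.1.im = z.im ∧ ‖x‖ ≤ z.im + d * D} =
          {x : C3 | x.1.im = z.im} ∩ Metric.closedBall 0 (z.im + d * D) := by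
        ext x; simp
      rw [h1]
      exact (isCompact_closedBall _ _).inter_left
        (isClosed_eq (Complex.continuous_im.comp continuous_fst) continuous_const)
    have hcont : ContinuousOn G {x : C3 | x.1.im = z.im ∧ ‖x‖ ≤ z.im + d * D} :=
      hG.continuousOn.mono (fun x hx => by
        change 0 < x.1.im
        rw [hx.1]; exact hz)
    obtain ⟨C, hC⟩ := hK.exists_bound_of_continuousOn hcont
    have hbd : ∀ w : C2, ‖G (z, w)‖ ≤ C := by
      intro w
      obtain ⟨a, ha, hta⟩ := hcov (((z.re / d : ℝ) : ℂ), (d : ℂ)⁻¹ • w) (Complex.ofReal_im _)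
      have hx : ((z, w) : C3) ∈ X := hz
      have h1 := hper (-a) (neg_mem ha) (z, w) hx
      rw [← h1]
      have haim := Lat_im ha
      have h2 : ((z, w) : C3) + (d : ℤ) • (-a) =
          ((((z.im : ℝ) : ℂ) * Complex.I, 0) : C3) +
            (d : ℂ) • ((((z.re / d : ℝ) : ℂ), (d : ℂ)⁻¹ • w) - a : C3) := by
        refine Prod.ext ?_ ?_
        · rw [Prod.fst_add, Prod.fst_add, e1, Prod.fst_neg, Prod.smul_fst, Prod.fst_sub,
            smul_eq_mul]
          push_cast
          have h3 : (d : ℂ) * ((z.re : ℂ) / d - a.1) = z.re - d * a.1 := by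
            field_simp
          rw [h3]
          have h4 := Complex.re_add_im z
          linear_combination (-1 : ℂ) * h4
        · simp only [Prod.snd_add, Prod.smul_snd, Prod.snd_neg, Prod.snd_sub]
          rw [smul_sub, smul_smul, mul_inv_cancel₀ hdC, one_smul, zero_add, smul_neg,
            ← sub_eq_add_neg]
          congr 1
          rw [natCast_zsmul, ← Nat.cast_smul_eq_nsmul ℂ]
      apply hC
      refine ⟨?_, ?_⟩
      · rw [h2]
        simp only [Prod.fst_add, Prod.smul_fst, Prod.fst_sub, smul_eq_mul, Complex.add_im,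
          Complex.mul_im, Complex.ofReal_re, Complex.I_im, Complex.ofReal_im, Complex.I_re,
          Complex.sub_im, haim, Complex.natCast_re, Complex.natCast_im]
        ring
      · rw [h2]
        refine (norm_add_le _ _).trans (add_le_add ?_ ?_)
        · rw [Prod.norm_mk, norm_zero, norm_mul, Complex.norm_I, mul_one, Complex.norm_real,
            Real.norm_eq_abs, abs_of_pos hz]
          exact max_le le_rfl hz.le
        · rw [norm_smul, Complex.norm_natCast]
          exact mul_le_mul_of_nonneg_left hta hd0.le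
    have hdiff : Differentiable ℂ (fun w : C2 => G (z, w)) := by
      intro w
      have hx : ((z, w) : C3) ∈ (X : Set C3) := hz
      have h1 : DifferentiableAt ℂ G (z, w) := hG.differentiableAt (X.isOpen.mem_nhds hx)
      exact h1.comp w ((differentiableAt_const z).prodMk differentiableAt_id)
    exact hdiff.apply_eq_apply_of_bounded
      (isBounded_iff_forall_norm_le.2 ⟨C, by rintro _ ⟨w, rfl⟩; exact hbd w⟩) w w'
  -- the function of one variable
  set g : ℂ → E := fun z => G (z, 0) with hg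
  set S : Set ℂ := {z : ℂ | 0 < z.im} with hS
  have hSo : IsOpen S := isOpen_lt continuous_const Complex.continuous_im
  have hgd : DifferentiableOn ℂ g S := by
    intro z hz
    have hx : ((z, 0) : C3) ∈ (X : Set C3) := hz
    have h1 : DifferentiableAt ℂ G (z, 0) := hG.differentiableAt (X.isOpen.mem_nhds hx)
    exact (h1.comp z (differentiableAt_id.prodMk (differentiableAt_const 0))).differentiableWithinAt
  have hgper : ∀ z ∈ S, ∀ n : ℕ, g (z + ((d * (U1⁻¹) ^ n : ℝ) : ℂ)) = g z := by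
    intro z hz n
    have ha : ((u ^ (-(n : ℤ)) : C3ˣ) : C3) * 1 ∈ Lat := u_zpow_mul_mem _ one_mem_Lat
    rw [mul_one] at ha
    have hx : ((z, 0) : C3) ∈ X := hz
    have h1 := hper _ ha (z, 0) hx
    have h2 : ((z, 0) : C3) + (d : ℤ) • ((u ^ (-(n : ℤ)) : C3ˣ) : C3) =
        (z + ((d * (U1⁻¹) ^ n : ℝ) : ℂ), (d : ℤ) • ((u ^ (-(n : ℤ)) : C3ˣ) : C3).2) := by
      refine Prod.ext ?_ ?_
      · rw [Prod.fst_add, e1, u_zpow_fst]
        push_cast
        rw [zpow_neg, zpow_natCast, inv_pow]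
      · simp only [Prod.snd_add, Prod.smul_snd, zero_add]
    rw [h2] at h1
    have h3 : 0 < (z + ((d * (U1⁻¹) ^ n : ℝ) : ℂ)).im := by
      rw [Complex.add_im, Complex.ofReal_im, add_zero]; exact hz
    calc g (z + ((d * (U1⁻¹) ^ n : ℝ) : ℂ)) = G (z + ((d * (U1⁻¹) ^ n : ℝ) : ℂ), 0) := rfl
      _ = G (z + ((d * (U1⁻¹) ^ n : ℝ) : ℂ), (d : ℤ) • ((u ^ (-(n : ℤ)) : C3ˣ) : C3).2) :=
          hfst _ h3 _ _
      _ = G (z, 0) := h1
  have hU : 1 < U1 := key_one_lt_U1
  have hUinv : U1⁻¹ < 1 := inv_lt_one_of_one_lt₀ hU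
  have hUpos : 0 < U1⁻¹ := inv_pos.2 U1_pos
  have hder : S.EqOn (deriv g) 0 := by
    intro z hz
    have h1 : HasDerivAt g (deriv g z) z :=
      (hgd.differentiableAt (hSo.mem_nhds hz)).hasDerivAt
    have h2 := hasDerivAt_iff_tendsto_slope.1 h1
    have h3 : Tendsto (fun n : ℕ => z + ((d * (U1⁻¹) ^ n : ℝ) : ℂ)) atTop (𝓝[≠] z) := by
      refine tendsto_nhdsWithin_iff.2 ⟨?_, Eventually.of_forall fun n => ?_⟩
      · have h4 : Tendsto (fun n : ℕ => (d * (U1⁻¹) ^ n : ℝ)) atTop (𝓝 (d * 0)) :=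
          (tendsto_pow_atTop_nhds_zero_of_lt_one hUpos.le hUinv).const_mul _
        rw [mul_zero] at h4
        have h5 : Tendsto (fun n : ℕ => ((d * (U1⁻¹) ^ n : ℝ) : ℂ)) atTop (𝓝 ((0 : ℝ) : ℂ)) :=
          (Complex.continuous_ofReal.tendsto 0).comp h4
        have h6 := h5.const_add z
        simpa using h6
      · have h4 : (0 : ℝ) < d * (U1⁻¹) ^ n := mul_pos hd0 (pow_pos hUpos n)
        change z + ((d * (U1⁻¹) ^ n : ℝ) : ℂ) ≠ z
        intro h
        have h5 : ((d * (U1⁻¹) ^ n : ℝ) : ℂ) = 0 := by simpa using h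
        rw [Complex.ofReal_eq_zero] at h5
        exact h4.ne' h5
    have h4 := h2.comp h3
    have h5 : (slope g z ∘ fun n : ℕ => z + ((d * (U1⁻¹) ^ n : ℝ) : ℂ)) = fun _ => 0 := by
      funext n
      simp only [Function.comp_apply, slope_def_module, hgper z hz n, sub_self, smul_zero]
    rw [h5] at h4
    exact (tendsto_nhds_unique h4 tendsto_const_nhds)
  have hSc : IsPreconnected S := by
    have : Convex ℝ S := by
      intro a ha b hb s t hs ht hst
      change 0 < (s • a + t • b).im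
      have h1 : (s • a + t • b).im = s * a.im + t * b.im := by simp
      rw [h1]
      have ha' : 0 < a.im := ha
      have hb' : 0 < b.im := hb
      rcases hs.eq_or_lt with h | h
      · have : t = 1 := by linarith
        rw [← h, this]; linarith
      · have := mul_pos h ha'
        have := mul_nonneg ht hb'.le
        linarith
    exact this.isPreconnected
  intro x hx y hy
  have h1 : G x = g x.1 := hfst x.1 hx x.2 0
  have h2 : G y = g y.1 := hfst y.1 hy y.2 0
  rw [h1, h2]
  exact hSo.is_const_of_deriv_eq_zero hSc hgd hder hx hy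

end HolPH.OT
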