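import Pool.Agent.Helper88.OT.Key
import Pool.Agent.Helper49.OT.Lat1

/-! OT-KEY, final form -/

open scoped Manifold ContDiff Topology
open Set Filter

noncomputable section

namespace HolPH.OT

theorem key {E : Type*} [NormedAddCommGroup E] [NormedSpace ℂ E] (G : C3 → E)
    (hG : DifferentiableOn ℂ G X) (d : ℕ) (hd : 1 ≤ d)
    (hper : ∀ a ∈ Lat, ∀ x ∈ X, G (x + (d : ℤ) • a) = G x) :
    ∀ x ∈ X, ∀ y ∈ X, G x = G y :=
  key_of_cover Lat_cover G hG d hd hper

end HolPH.OT
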